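import Pool.Agent.Lib.MP_3c1a32_coX.XMain
import Pool.Agent.Lib.MP_3c1a32_coL.LMain
import Pool.Agent.Lib.MP_3c1a32_co.Main

/-! MP_3c1a32_co: the main theorem with the final list for `GQ(q,q)` -/

namespace Pool.Agent.MP3c1a32

variable {V : Type} [Fintype V] [DecidableEq V] {G : SimpleGraph V} [DecidableRel G.Adj]
  {n k l m q : ℕ}

theorem srg_low (hG : G.IsSRGWith n k l (2 * (q + 1))) (hbot : G ≠ ⊥)
    (hloc : ∀ x, LocGQ G x q q) (hq : 2 ≤ q) : q ≤ 4 := by
  classical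
  obtain ⟨x, y, hxy⟩ := SimpleGraph.ne_bot_iff_exists_adj.mp hbot
  obtain ⟨K, hKc, hKx, hK⟩ := (hloc x).exists_clique ⟨y, hxy⟩
  have hxK : x ∉ K := fun hx => (hKx x hx).ne rfl
  refine low_le_four (C := ((insert x K : Finset V) : Set V)) (base_of_loc (by omega) hloc) ?_ hq
    ⟨?_, ?_⟩
  · intro a b hab hnab _
    have h1 := hG.of_not_adj hab hnab
    rw [← h1, ← Nat.card_eq_fintype_card]
    rfl
  · rw [Set.ncard_coe_finset, Finset.card_insert_of_notMem hxK, hKc]
  · intro a ha b hb hab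
    rw [Finset.mem_coe, Finset.mem_insert] at ha hb
    rcases ha with rfl | ha
    · rcases hb with rfl | hb
      · exact absurd rfl hab
      · exact hKx b hb
    · rcases hb with rfl | hb
      · exact (hKx a ha).symm
      · exact hK a ha b hb hab

theorem srg_high (hG : G.IsSRGWith n k l m) (hbot : G ≠ ⊥)
    (hloc : ∀ x, LocGQ G x q q) (hq : 2 ≤ q) (hm : m = 2 * (q * q + 1)) :
    (n, k, l, m) = (28, 15, 6, 10) := by
  have hm' : m = 2 * (q ^ 2 + 1) := by rw [hm]; ring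
  have hG' : G.IsSRGWith n k l (2 * (q ^ 2 + 1)) := by rw [← hm']; exact hG
  have hq2 := high_le_two hG' hbot hloc hq
  have hq' : q = 2 := le_antisymm hq2 hq
  subst hq'
  obtain ⟨x, -, -⟩ := SimpleGraph.ne_bot_iff_exists_adj.mp hbot
  obtain ⟨hk, hl⟩ := par_kl hG hbot (hloc x)
  obtain ⟨-, -, hkn, hn⟩ := par_n hG hbot hloc (by norm_num) (by norm_num)
  norm_num at hk hl hm
  subst hk hl hm
  have h1 : n = 28 := by omega
  rw [h1]

/-- the main theorem, with the final list for `GQ(q,q)` -/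
theorem main2 (hG : G.IsSRGWith n k l m) (hbot : G ≠ ⊥)
    (hloc : ∀ x, ∃ s t, LocGQ G x s t) {x₀ : V} {p i j : ℕ} (hp : p.Prime) (hi : 1 ≤ i)
    (hj : 1 ≤ j) (hx₀ : LocGQ G x₀ (p ^ i) (p ^ j)) :
    (∀ x, LocGQ G x (p ^ i) (p ^ j)) ∧
    k = (p ^ i + 1) * (p ^ i * p ^ j + 1) ∧ l = p ^ i * (p ^ j + 1) ∧
    (i < j → (n, k, l, m) = (64, 27, 10, 12) ∨ (n, k, l, m) = (275, 112, 30, 56) ∨
      (n, k, l, m) = (486, 165, 36, 66) ∨ (n, k, l, m) = (870, 165, 36, 30) ∨
      (n, k, l, m) = (242194, 8721, 528, 306)) ∧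
    (i = j → (n, k, l, m) = (28, 15, 6, 10) ∨ (n, k, l, m) = (36, 15, 6, 6) ∨
      (n, k, l, m) = (176, 40, 12, 8) ∨ (n, k, l, m) = (630, 85, 20, 10) ∨
      (n, k, l, m) = (3914, 585, 72, 90)) ∧
    (j < i → (m = 2 * (p ^ i * p ^ j + 1) ∧ (p ^ j + 1) ∣ ((p ^ i) ^ 2 - 1) * (p ^ i + 2)) ∨
      (m = 2 * (p ^ i + 1) ∧ (p ^ i + 2) ∣ 8 * p ^ j * ((p ^ j) ^ 2 - 1) * (2 * p ^ j - 1))) ∧
    (2 * i = 3 * j → (n, k, l, m) = (1450, 297, 40, 66)) ∧
    (i = 2 * j → m = 2 * (p ^ i * p ^ j + 1) ∨ (n, k, l, m) = (190, 45, 12, 10) ∨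
      (n, k, l, m) = (200152, 3276, 150, 52)) := by
  obtain ⟨h1, h2, h3, h4, h5, h6, h7, h8⟩ := main hG hbot hloc hp hi hj hx₀
  refine ⟨h1, h2, h3, h4, ?_, ?_, h6, h7⟩
  · intro hij
    subst hij
    have hq2 : 2 ≤ p ^ i := by
      calc 2 ≤ p := hp.two_le
        _ = p ^ 1 := (pow_one p).symm
        _ ≤ p ^ i := Nat.pow_le_pow_right hp.pos hi
    generalize p ^ i = q at *
    rcases h8 rfl with h | h | h | h | h | h | h
    · exact Or.inl (srg_high hG hbot h1 hq2 h)
    · exact Or.inr (Or.inl h)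
    · exact Or.inr (Or.inr (Or.inl h))
    · exact Or.inr (Or.inr (Or.inr (Or.inl h)))
    · exact Or.inr (Or.inr (Or.inr (Or.inr h)))
    · exfalso
      simp only [Prod.mk.injEq] at h
      obtain ⟨hn, hk, hl, hm⟩ := h
      have hq8 : q = 8 := by
        rw [h2] at hk
        have h9 : q ≤ 8 := by
          by_contra hh
          have : 9 ≤ q := by omega
          have : (9 + 1) * (9 * 9 + 1) ≤ (q + 1) * (q * q + 1) := by gcongr
          omega
        interval_cases q <;> omega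
      subst hq8
      have := srg_low (q := 8) (by rw [hm] at hG; exact hG) hbot h1 (by norm_num)
      omega
    · exfalso
      simp only [Prod.mk.injEq] at h
      obtain ⟨hn, hk, hl, hm⟩ := h
      have hq8 : q = 13 := by
        rw [h2] at hk
        have h9 : q ≤ 13 := by
          by_contra hh
          have : 14 ≤ q := by omega
          have : (14 + 1) * (14 * 14 + 1) ≤ (q + 1) * (q * q + 1) := by gcongr
          omega
        interval_cases q <;> omega
      subst hq8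
      have := srg_low (q := 13) (by rw [hm] at hG; exact hG) hbot h1 (by norm_num)
      omega
  · intro hji
    rcases h5 hji.le with h | h | h
    · exact Or.inl h
    · exact Or.inr h
    · exfalso
      simp only [Prod.mk.injEq] at h
      obtain ⟨hn, hk, hl, hm⟩ := h
      have ha : 1 ≤ p ^ i := Nat.one_le_pow _ _ hp.pos
      have hb : 1 ≤ p ^ j := Nat.one_le_pow _ _ hp.pos
      obtain ⟨h9, h10⟩ := params_unique (s' := 8) (t' := 8) ha hb
        (by rw [← h2, hk]) (by rw [← h3, hl])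
      have := Nat.pow_right_injective hp.two_le (h9.trans h10.symm)
      omega

end Pool.Agent.MP3c1a32
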