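import Pool.Agent.Lib.MP_3c1a32_coX.XDefs

/-! MP_3c1a32_co: the facts that come from the structure of the neighbourhoods -/

namespace Pool.Agent.MP3c1a32

open Finset

variable {V : Type} [Fintype V] [DecidableEq V] {G : SimpleGraph V} [DecidableRel G.Adj] {q : ℕ}

namespace XA

omit [DecidableEq V] in
theorem sum_ind (P : V → Prop) [DecidablePred P] :
    ∑ z, (if P z then (1 : ℚ) else 0) = ({z | P z}.ncard : ℚ) := by
  classical
  rw [Finset.sum_boole, Set.ncard_eq_toFinset_card']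
  congr 1
  congr 1
  ext z
  simp

omit [DecidableEq V] in
theorem card_filter_eq (P : V → Prop) [DecidablePred P] :
    (univ.filter P).card = {z | P z}.ncard := by
  classical
  rw [Set.ncard_eq_toFinset_card']
  congr 1
  ext z
  simp

omit [Fintype V] [DecidableEq V] in
theorem ad_mul (x y z : V) :
    ad G x z * ad G y z = if G.Adj x z ∧ G.Adj y z then (1 : ℚ) else 0 := by
  unfold ad
  by_cases h1 : G.Adj x z <;> by_cases h2 : G.Adj y z <;> simp [h1, h2]

omit [Fintype V] [DecidableEq V] in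
theorem ad_mul3 (x y z u : V) :
    ad G x u * ad G y u * ad G z u =
      if G.Adj x u ∧ G.Adj y u ∧ G.Adj z u then (1 : ℚ) else 0 := by
  unfold ad
  by_cases h1 : G.Adj x u <;> by_cases h2 : G.Adj y u <;> by_cases h3 : G.Adj z u <;>
    simp [h1, h2, h3]

end XA

theorem base_deg (h : Base G q) {x y : V} (hxy : G.Adj x y) :
    ∑ z, ad G x z = (q + 1) * (q ^ 2 + 1) := by
  have h1 : ∑ z, ad G x z = ({z | G.Adj x z}.ncard : ℚ) := XA.sum_ind _
  rw [h1, h.deg x y hxy]
  push_cast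
  ring

theorem base_lam (h : Base G q) {x y : V} (hxy : G.Adj x y) :
    ∑ z, ad G x z * ad G y z = q * (q + 1) := by
  have h1 : ∑ z, ad G x z * ad G y z = ({z | G.Adj x z ∧ G.Adj y z}.ncard : ℚ) := by
    rw [← XA.sum_ind]
    exact Finset.sum_congr rfl fun z _ => XA.ad_mul x y z
  rw [h1, h.two x y hxy]
  push_cast
  ring

theorem base_mu2 (h : Base G q) {x y z : V} (hne : x ≠ y) (hn : ¬ G.Adj x y) (hx : G.Adj x z)
    (hy : G.Adj y z) : al G x y z = q + 1 := by
  have h1 : al G x y z = ({w | G.Adj z w ∧ G.Adj x w ∧ G.Adj y w}.ncard : ℚ) := by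
    rw [← XA.sum_ind]
    refine Finset.sum_congr rfl fun u _ => ?_
    rw [XA.ad_mul3]
    by_cases h1 : G.Adj x u <;> by_cases h2 : G.Adj y u <;> by_cases h3 : G.Adj z u <;>
      simp [h1, h2, h3]
  rw [h1, h.nonadj z x y hx.symm hy.symm hne hn]
  push_cast
  ring

theorem base_tri (h : Base G q) (hq : 1 ≤ q) {x y z : V} (hxy : G.Adj x y) (hxz : G.Adj x z)
    (hyz : G.Adj y z) : ∃ C, Blk G q C ∧
    ∀ w, w ∈ C ↔ ((w = x ∨ G.Adj x w) ∧ (w = y ∨ G.Adj y w) ∧ (w = z ∨ G.Adj z w)) := by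
  classical
  have hxy' := G.ne_of_adj hxy
  have hxz' := G.ne_of_adj hxz
  have hyz' := G.ne_of_adj hyz
  set N : Finset V := univ.filter (fun w => G.Adj x w ∧ G.Adj y w ∧ G.Adj z w) with hN
  have hNc : N.card = q - 1 := by
    rw [hN, XA.card_filter_eq]
    exact h.tri x y z hxy hxz hyz
  have hmN : ∀ w, w ∈ N ↔ G.Adj x w ∧ G.Adj y w ∧ G.Adj z w := by
    intro w
    rw [hN, mem_filter]
    simp
  have hx : x ∉ N := fun hx => G.irrefl ((hmN x).1 hx).1
  have hy : y ∉ N := fun hy => G.irrefl ((hmN y).1 hy).2.1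
  have hz : z ∉ N := fun hz => G.irrefl ((hmN z).1 hz).2.2
  have key : ∀ w, w ∈ insert x (insert y (insert z N)) ↔
      ((w = x ∨ G.Adj x w) ∧ (w = y ∨ G.Adj y w) ∧ (w = z ∨ G.Adj z w)) := by
    intro w
    rw [mem_insert, mem_insert, mem_insert, hmN]
    constructor
    · rintro (rfl | rfl | rfl | ⟨h1, h2, h3⟩)
      · exact ⟨Or.inl rfl, Or.inr hxy.symm, Or.inr hxz.symm⟩
      · exact ⟨Or.inr hxy, Or.inl rfl, Or.inr hyz.symm⟩
      · exact ⟨Or.inr hxz, Or.inr hyz, Or.inl rfl⟩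
      · exact ⟨Or.inr h1, Or.inr h2, Or.inr h3⟩
    · rintro ⟨h1 | h1, h2 | h2, h3 | h3⟩
      all_goals tauto
  refine ⟨insert x (insert y (insert z N)), ⟨?_, ?_⟩, key⟩
  · rw [card_insert_of_notMem, card_insert_of_notMem, card_insert_of_notMem hz, hNc]
    · omega
    · rw [mem_insert]
      rintro (h1 | h1)
      · exact hyz' h1
      · exact hy h1
    · rw [mem_insert, mem_insert]
      rintro (h1 | h1 | h1)
      · exact hxy' h1
      · exact hxz' h1
      · exact hx h1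
  · intro a ha b hb hab
    obtain ⟨a1, a2, a3⟩ := (key a).1 ha
    obtain ⟨b1, b2, b3⟩ := (key b).1 hb
    rcases a1 with rfl | a1
    · exact b1.resolve_left (Ne.symm hab)
    rcases a2 with rfl | a2
    · exact b2.resolve_left (Ne.symm hab)
    rcases a3 with rfl | a3
    · exact b3.resolve_left (Ne.symm hab)
    rcases b1 with rfl | b1
    · exact a1.symm
    rcases b2 with rfl | b2
    · exact a2.symm
    rcases b3 with rfl | b3
    · exact a3.symm
    exact h.diamond x y z a b hxy hxz hyz a1 a2 a3 b1 b2 b3 hab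

theorem base_edge (h : Base G q) (hq : 1 ≤ q) {x y : V} (hxy : G.Adj x y) :
    ∃ C, Blk G q C ∧ x ∈ C ∧ y ∈ C := by
  have h1 : {z | G.Adj x z ∧ G.Adj y z}.ncard ≠ 0 := by
    rw [h.two x y hxy]
    positivity
  obtain ⟨z, hz⟩ := Set.nonempty_of_ncard_ne_zero h1
  obtain ⟨C, hC, hmem⟩ := base_tri h hq hxy hz.1 hz.2
  refine ⟨C, hC, (hmem x).2 ⟨Or.inl rfl, Or.inr hxy.symm, Or.inr hz.1.symm⟩,
    (hmem y).2 ⟨Or.inr hxy, Or.inl rfl, Or.inr hz.2.symm⟩⟩

/-- a vertex outside a block has at most two neighbours in it -/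
theorem base_out_le (h : Base G q) (hq : 1 ≤ q) {C : Finset V} (hC : Blk G q C) {y : V}
    (hy : y ∉ C) : ∑ z ∈ C, ad G y z ≤ 2 := by
  classical
  have h1 : ∑ z ∈ C, ad G y z = ((C.filter (fun z => G.Adj y z)).card : ℚ) := by
    unfold ad
    rw [Finset.sum_boole]
  rw [h1]
  by_contra hcon
  have h2 : 2 < (C.filter (fun z => G.Adj y z)).card := by
    by_contra h3
    apply hcon
    have h4 : (C.filter (fun z => G.Adj y z)).card ≤ 2 := by omega
    exact_mod_cast h4
  obtain ⟨a, ha, b, hb, c, hc, hab, hac, hbc⟩ := Finset.two_lt_card.1 h2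
  rw [mem_filter] at ha hb hc
  have eab := hC.2 a ha.1 b hb.1 hab
  have eac := hC.2 a ha.1 c hc.1 hac
  have ebc := hC.2 b hb.1 c hc.1 hbc
  set N : Finset V := univ.filter (fun w => G.Adj a w ∧ G.Adj b w ∧ G.Adj c w) with hN
  have hNc : N.card = q - 1 := by
    rw [hN, XA.card_filter_eq]
    exact h.tri a b c eab eac ebc
  have hsub : C \ {a, b, c} ⊆ N := by
    intro w hw
    rw [mem_sdiff, mem_insert, mem_insert, mem_singleton] at hw
    push Not at hw
    rw [hN, mem_filter]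
    exact ⟨mem_univ _, hC.2 a ha.1 w hw.1 (Ne.symm hw.2.1), hC.2 b hb.1 w hw.1 (Ne.symm hw.2.2.1),
      hC.2 c hc.1 w hw.1 (Ne.symm hw.2.2.2)⟩
  have hcard : (C \ {a, b, c}).card = q - 1 := by
    have hs : ({a, b, c} : Finset V) ⊆ C := by
      intro w hw
      rw [mem_insert, mem_insert, mem_singleton] at hw
      rcases hw with rfl | rfl | rfl
      · exact ha.1
      · exact hb.1
      · exact hc.1
    rw [card_sdiff_of_subset hs, hC.1, card_eq_three.2 ⟨a, b, c, hab, hac, hbc, rfl⟩]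
    omega
  have heq : C \ {a, b, c} = N := Finset.eq_of_subset_of_card_le hsub (by rw [hNc, hcard])
  have hyN : y ∈ N := by
    rw [hN, mem_filter]
    exact ⟨mem_univ _, ha.2.symm, hb.2.symm, hc.2.symm⟩
  rw [← heq, mem_sdiff] at hyN
  exact hy hyN.1

end Pool.Agent.MP3c1a32
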