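import Pool.Agent.Lib.MP_3c1a32_coX.XA
import Pool.Agent.Lib.MP_3c1a32_co.MuLe

/-! MP_3c1a32_co: every vertex outside a block has exactly two neighbours in it -/

namespace Pool.Agent.MP3c1a32

open Finset

variable {V : Type} [Fintype V] [DecidableEq V] {G : SimpleGraph V} [DecidableRel G.Adj]
  {n k l m q : ℕ}

/-- the number of vertices -/
theorem srg_card (hG : G.IsSRGWith n k l (2 * (q ^ 2 + 1))) (hbot : G ≠ ⊥)
    (hloc : ∀ x, LocGQ G x q q) (hq : 2 ≤ q) :
    2 * (Fintype.card V : ℚ) = (q + 2) * (q ^ 3 + q ^ 2 + 2) := by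
  obtain ⟨-, -, hkn, hp⟩ := par_n hG hbot hloc (by omega) (by omega)
  obtain ⟨x, -, -⟩ := SimpleGraph.ne_bot_iff_exists_adj.mp hbot
  obtain ⟨hk1, -⟩ := par_kl hG hbot (hloc x)
  obtain ⟨r, rfl⟩ : ∃ r, n = k + 1 + r := ⟨n - (k + 1), by omega⟩
  have hr : k + 1 + r - k - 1 = r := by omega
  rw [hr, hk1] at hp
  have h1 : (q ^ 2 + 1) * (2 * r) = (q ^ 2 + 1) * ((q + 1) * q ^ 3) := by
    calc (q ^ 2 + 1) * (2 * r) = r * (2 * (q ^ 2 + 1)) := by ring
      _ = _ := by rw [hp]; ring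
  have h2 : 2 * r = (q + 1) * q ^ 3 := Nat.eq_of_mul_eq_mul_left (by positivity) h1
  have h3 : 2 * (r : ℚ) = (q + 1) * q ^ 3 := by exact_mod_cast h2
  have h4 : (k : ℚ) = (q + 1) * (q * q + 1) := by exact_mod_cast hk1
  rw [hG.card]
  push_cast
  rw [h4]
  linarith

/-- every vertex outside a block has exactly two neighbours in it -/
theorem srg_out (hG : G.IsSRGWith n k l (2 * (q ^ 2 + 1))) (hbot : G ≠ ⊥)
    (hloc : ∀ x, LocGQ G x q q) (hb : Base G q) (hq : 2 ≤ q) {C : Finset V} (hC : Blk G q C)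
    {y : V} (hy : y ∉ C) : ∑ z ∈ C, ad G y z = 2 := by
  classical
  have hcard := srg_card hG hbot hloc hq
  have hsym : ∀ a b : V, ad G a b = ad G b a := by
    intro a b
    unfold ad
    simp only [G.adj_comm a b]
  have hin : ∀ c ∈ C, ∑ z ∈ C, ad G c z = q + 1 := by
    intro c hc
    rw [← Finset.add_sum_erase C _ hc]
    have h1 : ∑ z ∈ C.erase c, ad G c z = ∑ z ∈ C.erase c, (1 : ℚ) := by
      refine Finset.sum_congr rfl fun z hz => ?_
      rw [Finset.mem_erase] at hz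
      unfold ad
      rw [if_pos (hC.2 c hc z hz.2 (Ne.symm hz.1))]
    have h2 : ad G c c = 0 := by
      unfold ad
      rw [if_neg (G.irrefl)]
    rw [h1, h2, Finset.sum_const, Finset.card_erase_of_mem hc, hC.1]
    simp
  have hdeg : ∀ c ∈ C, ∑ z, ad G c z = (q + 1) * (q ^ 2 + 1) := by
    intro c hc
    have h1 : 0 < (C.erase c).card := by
      rw [Finset.card_erase_of_mem hc, hC.1]
      omega
    obtain ⟨d, hd⟩ := Finset.card_pos.1 h1
    rw [Finset.mem_erase] at hd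
    exact base_deg hb (hC.2 c hc d hd.2 (Ne.symm hd.1))
  have hout : ∀ c ∈ C, ∑ z ∈ Cᶜ, ad G c z = (q + 1) * q ^ 2 := by
    intro c hc
    have h1 := Finset.sum_add_sum_compl C (fun z => ad G c z)
    rw [hin c hc, hdeg c hc] at h1
    linarith
  have hsum : ∑ z ∈ Cᶜ, ∑ c ∈ C, ad G z c = (q + 2) * ((q + 1) * q ^ 2) := by
    rw [Finset.sum_comm]
    have h1 : ∑ c ∈ C, ∑ z ∈ Cᶜ, ad G z c = ∑ c ∈ C, ((q + 1) * q ^ 2 : ℚ) := by
      refine Finset.sum_congr rfl fun c hc => ?_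
      rw [← hout c hc]
      exact Finset.sum_congr rfl fun z _ => hsym z c
    rw [h1, Finset.sum_const, hC.1, nsmul_eq_mul]
    push_cast
    ring
  have hcc : ((Cᶜ).card : ℚ) = Fintype.card V - (q + 2) := by
    have h1 := Finset.card_compl_add_card C
    rw [hC.1] at h1
    have h2 : ((Cᶜ).card : ℚ) + (q + 2) = Fintype.card V := by exact_mod_cast h1
    linarith
  have hzero : ∑ z ∈ Cᶜ, (2 - ∑ c ∈ C, ad G z c) = 0 := by
    rw [Finset.sum_sub_distrib, hsum, Finset.sum_const, nsmul_eq_mul, hcc]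
    linarith
  have hnn : ∀ z ∈ Cᶜ, (0 : ℚ) ≤ 2 - ∑ c ∈ C, ad G z c := by
    intro z hz
    rw [Finset.mem_compl] at hz
    have := base_out_le hb (by omega) hC hz
    linarith
  have h1 := (Finset.sum_eq_zero_iff_of_nonneg hnn).1 hzero y (Finset.mem_compl.2 hy)
  linarith

end Pool.Agent.MP3c1a32
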