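import Pool.Agent.Lib.MP_3c1a32_coX.XDefs

/-! MP_3c1a32_co: sums of balanced functions -/

namespace Pool.Agent.MP3c1a32

open Finset

variable {V : Type} [Fintype V] [DecidableEq V] {G : SimpleGraph V} [DecidableRel G.Adj] {q : ℕ}

namespace XB

/-- the closed neighbourhood indicator -/
def cl (G : SimpleGraph V) [DecidableRel G.Adj] (z w : V) : ℚ :=
  if w = z ∨ G.Adj z w then 1 else 0

omit [Fintype V] in
theorem cl_comm (z w : V) : cl G z w = cl G w z := by
  unfold cl
  have : (w = z ∨ G.Adj z w) ↔ (z = w ∨ G.Adj w z) := by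
    rw [G.adj_comm, eq_comm]
  simp only [this]

omit [Fintype V] [DecidableEq V] in
theorem ad_comm (x y : V) : ad G x y = ad G y x := by
  unfold ad
  simp only [G.adj_comm]

omit [Fintype V] [DecidableEq V] in
theorem ad_self (x : V) : ad G x x = 0 := by
  unfold ad
  simp

/-- the sum over a block through three pairwise adjacent vertices -/
theorem blk_sum {x y z : V} (hxy : G.Adj x y) (hxz : G.Adj x z) (hyz : G.Adj y z) {C : Finset V}
    (hC : ∀ w, w ∈ C ↔ ((w = x ∨ G.Adj x w) ∧ (w = y ∨ G.Adj y w) ∧ (w = z ∨ G.Adj z w)))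
    (g : V → ℚ) :
    ∑ w ∈ C, g w = g x + g y + ∑ w, ad G x w * ad G y w * cl G z w * g w := by
  have h1 : ∑ w ∈ C, g w = ∑ w, if w ∈ C then g w else 0 := by
    rw [Finset.sum_ite_mem, Finset.univ_inter]
  have h2 : g x = ∑ w, if w = x then g w else 0 := by
    rw [Finset.sum_ite_eq']
    simp
  have h3 : g y = ∑ w, if w = y then g w else 0 := by
    rw [Finset.sum_ite_eq']
    simp
  rw [h1, h2, h3, ← Finset.sum_add_distrib, ← Finset.sum_add_distrib]
  refine Finset.sum_congr rfl fun w _ => ?_
  by_cases hwx : w = x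
  · subst hwx
    have hm : w ∈ C := (hC w).2 ⟨Or.inl rfl, Or.inr hxy.symm, Or.inr hxz.symm⟩
    rw [if_pos hm, if_pos rfl, if_neg hxy.ne, ad_self]
    ring
  · by_cases hwy : w = y
    · subst hwy
      have hm : w ∈ C := (hC w).2 ⟨Or.inr hxy, Or.inl rfl, Or.inr hyz.symm⟩
      rw [if_pos hm, if_neg hwx, if_pos rfl, ad_self w]
      ring
    · rw [if_neg hwx, if_neg hwy]
      by_cases h4 : G.Adj x w
      · by_cases h5 : G.Adj y w
        · by_cases h6 : w = z ∨ G.Adj z w
          · have hm : w ∈ C := (hC w).2 ⟨Or.inr h4, Or.inr h5, h6⟩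
            rw [if_pos hm]
            unfold ad cl
            rw [if_pos h4, if_pos h5, if_pos h6]
            ring
          · have hm : w ∉ C := fun hm => h6 ((hC w).1 hm).2.2
            rw [if_neg hm]
            unfold ad cl
            rw [if_neg h6]
            ring
        · have hm : w ∉ C := fun hm => by
            rcases ((hC w).1 hm).2.1 with h | h
            · exact hwy h
            · exact h5 h
          rw [if_neg hm]
          unfold ad
          rw [if_neg h5]
          ring
      · have hm : w ∉ C := fun hm => by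
          rcases ((hC w).1 hm).1 with h | h
          · exact hwx h
          · exact h4 h
        rw [if_neg hm]
        unfold ad
        rw [if_neg h4]
        ring

/-- the sum over the common neighbours of `x`, `y`, `z` together with `z` -/
theorem line_sum (h : Hi G q) {f : V → ℚ} {c : ℚ} (hf : Bal G q f c) {x y z : V}
    (hxy : G.Adj x y) (hxz : G.Adj x z) (hyz : G.Adj y z) :
    ∑ w, ad G x w * ad G y w * cl G z w * f w = c - f x - f y := by
  obtain ⟨C, hB, hC⟩ := h.tri x y z hxy hxz hyz
  have h1 := blk_sum hxy hxz hyz hC f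
  rw [hf C hB] at h1
  linarith

theorem line_card (h : Hi G q) {x y z : V}
    (hxy : G.Adj x y) (hxz : G.Adj x z) (hyz : G.Adj y z) :
    ∑ w, ad G x w * ad G y w * cl G z w = q := by
  obtain ⟨C, hB, hC⟩ := h.tri x y z hxy hxz hyz
  have h1 := blk_sum hxy hxz hyz hC (fun _ => 1)
  simp only [Finset.sum_const, hB.1, nsmul_eq_mul, mul_one] at h1
  push_cast at h1
  linarith

end XB

theorem Hi.edge_sum (h : Hi G q) {f : V → ℚ} {c : ℚ} (hf : Bal G q f c) {x y : V}
    (hxy : G.Adj x y) : ∑ z, ad G x z * ad G y z * f z = (q + 1) * (c - f x - f y) := by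
  have hq : (0 : ℚ) < q := by
    have := h.two_le
    exact_mod_cast (by omega : 0 < q)
  -- the double sum
  have h1 : ∑ z, ∑ w, (ad G x z * ad G y z) * (ad G x w * ad G y w * XB.cl G z w * f w) =
      (q * (q + 1)) * (c - f x - f y) := by
    rw [← h.lam x y hxy, Finset.sum_mul]
    refine Finset.sum_congr rfl fun z _ => ?_
    rw [← Finset.mul_sum]
    by_cases h2 : G.Adj x z
    · by_cases h3 : G.Adj y z
      · rw [XB.line_sum h hf hxy h2 h3]
      · have : ad G y z = 0 := by
          unfold ad
          exact if_neg h3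
        rw [this]
        ring
    · have : ad G x z = 0 := by
        unfold ad
        exact if_neg h2
      rw [this]
      ring
  have h2 : ∑ z, ∑ w, (ad G x z * ad G y z) * (ad G x w * ad G y w * XB.cl G z w * f w) =
      q * ∑ w, ad G x w * ad G y w * f w := by
    rw [Finset.sum_comm, Finset.mul_sum]
    refine Finset.sum_congr rfl fun w _ => ?_
    have h3 : ∀ z, (ad G x z * ad G y z) * (ad G x w * ad G y w * XB.cl G z w * f w) =
        (ad G x z * ad G y z * XB.cl G w z) * (ad G x w * ad G y w * f w) := by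
      intro z
      rw [XB.cl_comm z w]
      ring
    rw [Finset.sum_congr rfl fun z _ => h3 z, ← Finset.sum_mul]
    by_cases h4 : G.Adj x w
    · by_cases h5 : G.Adj y w
      · rw [XB.line_card h hxy h4 h5]
      · have : ad G y w = 0 := by
          unfold ad
          exact if_neg h5
        rw [this]
        ring
    · have : ad G x w = 0 := by
        unfold ad
        exact if_neg h4
      rw [this]
      ring
  have h3 : (q : ℚ) * ∑ w, ad G x w * ad G y w * f w = q * ((q + 1) * (c - f x - f y)) := by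
    rw [← h2, h1]
    ring
  exact mul_left_cancel₀ hq.ne' h3

theorem Hi.nbr_sum (h : Hi G q) {f : V → ℚ} {c : ℚ} (hf : Bal G q f c) (x : V) :
    ∑ z, ad G x z * f z = (q ^ 2 + 1) * (c - f x) := by
  have hq : (0 : ℚ) < (q : ℚ) + 1 := by positivity
  have h1 : ∑ y, ad G x y * ∑ z, ad G x z * ad G y z * f z =
      (q + 1) * ((q + 1) * (q ^ 2 + 1) * (c - f x) - ∑ y, ad G x y * f y) := by
    have h2 : ∀ y, ad G x y * ∑ z, ad G x z * ad G y z * f z =
        ad G x y * ((q + 1) * (c - f x - f y)) := by
      intro y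
      by_cases h3 : G.Adj x y
      · rw [h.edge_sum hf h3]
      · have : ad G x y = 0 := by
          unfold ad
          exact if_neg h3
        rw [this]
        ring
    rw [Finset.sum_congr rfl fun y _ => h2 y]
    have h3 : ∀ y, ad G x y * ((q + 1) * (c - f x - f y)) =
        ad G x y * ((q + 1) * (c - f x)) - (q + 1) * (ad G x y * f y) := by
      intro y
      ring
    rw [Finset.sum_congr rfl fun y _ => h3 y, Finset.sum_sub_distrib, ← Finset.sum_mul,
      ← Finset.mul_sum, h.deg x]
    ring
  have h2 : ∑ y, ad G x y * ∑ z, ad G x z * ad G y z * f z =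
      q * (q + 1) * ∑ z, ad G x z * f z := by
    have h3 : ∀ y, ad G x y * ∑ z, ad G x z * ad G y z * f z =
        ∑ z, ad G x y * (ad G x z * ad G y z * f z) := fun y => Finset.mul_sum _ _ _
    rw [Finset.sum_congr rfl fun y _ => h3 y, Finset.sum_comm, Finset.mul_sum]
    refine Finset.sum_congr rfl fun z _ => ?_
    have h4 : ∀ y, ad G x y * (ad G x z * ad G y z * f z) =
        (ad G x y * ad G z y) * (ad G x z * f z) := by
      intro y
      rw [XB.ad_comm y z]
      ring
    rw [Finset.sum_congr rfl fun y _ => h4 y, ← Finset.sum_mul]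
    by_cases h5 : G.Adj x z
    · rw [h.lam x z h5]
    · have : ad G x z = 0 := by
        unfold ad
        exact if_neg h5
      rw [this]
      ring
  have h3 : ((q : ℚ) + 1) ^ 2 * ∑ z, ad G x z * f z =
      ((q : ℚ) + 1) ^ 2 * ((q ^ 2 + 1) * (c - f x)) := by
    linear_combination h1 - h2
  exact mul_left_cancel₀ (pow_pos hq 2).ne' h3

theorem Hi.total_sum (h : Hi G q) {f : V → ℚ} {c : ℚ} (hf : Bal G q f c) :
    ∑ z, f z = c * (q ^ 3 + q ^ 2 + 2) / 2 := by
  have hq : (0 : ℚ) < (q : ℚ) + 2 := by positivity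
  have hq2 : (0 : ℚ) < (q : ℚ) ^ 2 + 1 := by positivity
  have h1 : ∑ x, ∑ z, ad G x z * f z = (q ^ 2 + 1) * (c * Fintype.card V - ∑ z, f z) := by
    rw [Finset.sum_congr rfl fun x _ => h.nbr_sum hf x, ← Finset.mul_sum,
      Finset.sum_sub_distrib]
    simp only [Finset.sum_const, Finset.card_univ, nsmul_eq_mul]
    ring
  have h2 : ∑ x, ∑ z, ad G x z * f z = (q + 1) * (q ^ 2 + 1) * ∑ z, f z := by
    rw [Finset.sum_comm, Finset.mul_sum]
    refine Finset.sum_congr rfl fun z _ => ?_
    rw [← Finset.sum_mul, ← h.deg z]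
    congr 1
    exact Finset.sum_congr rfl fun x _ => XB.ad_comm x z
  have h3 := h.card
  have h4 : (((q : ℚ) ^ 2 + 1) * (q + 2)) * ∑ z, f z =
      (((q : ℚ) ^ 2 + 1) * (q + 2)) * (c * (q ^ 3 + q ^ 2 + 2) / 2) := by
    linear_combination h1 - h2 + (q ^ 2 + 1) * c / 2 * h3
  exact mul_left_cancel₀ (mul_pos hq2 hq).ne' h4

/-- the reproducing property of the kernel -/
theorem Hi.rep (h : Hi G q) {f : V → ℚ} {c : ℚ} (hf : Bal G q f c) (x : V) :
    ip q f (kn G q x) c q = f x := by
  have hq : (0 : ℚ) < q := by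
    have := h.two_le
    exact_mod_cast (by omega : 0 < q)
  have hq1 : (0 : ℚ) < (q : ℚ) + 1 := by positivity
  have h1 : ∀ z, f z * kn G q x z =
      ((q : ℚ) - 1) * (if z = x then f z else 0) + f z - ad G x z * f z := by
    intro z
    unfold kn ad
    by_cases h2 : z = x
    · subst h2
      simp
      ring
    · rw [if_neg (Ne.symm h2), if_neg h2]
      by_cases h3 : G.Adj x z
      · rw [if_pos h3, if_pos h3]
        ring
      · rw [if_neg h3, if_neg h3]
        ring
  have h2 : ∑ z, f z * kn G q x z =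
      ((q : ℚ) - 1) * f x + c * (q ^ 3 + q ^ 2 + 2) / 2 - (q ^ 2 + 1) * (c - f x) := by
    rw [Finset.sum_congr rfl fun z _ => h1 z, Finset.sum_sub_distrib, Finset.sum_add_distrib,
      ← Finset.mul_sum, Finset.sum_ite_eq', h.total_sum hf, h.nbr_sum hf]
    simp
  unfold ip
  rw [h2]
  field_simp
  ring

/-- the inner product with the constant function -/
theorem Hi.rep_one (h : Hi G q) {f : V → ℚ} {c : ℚ} (hf : Bal G q f c) :
    ip q f (fun _ => 1) c (q + 2) = c / q := by
  have hq : (0 : ℚ) < q := by
    have := h.two_le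
    exact_mod_cast (by omega : 0 < q)
  have hq1 : (0 : ℚ) < (q : ℚ) + 1 := by positivity
  unfold ip
  simp only [mul_one]
  rw [h.total_sum hf]
  field_simp
  ring

end Pool.Agent.MP3c1a32
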