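import Pool.Agent.Lib.MP_3c1a32_coX.XDefs

/-! MP_3c1a32_co: balanced functions -/

namespace Pool.Agent.MP3c1a32

open Finset

variable {V : Type} [Fintype V] [DecidableEq V] {G : SimpleGraph V} [DecidableRel G.Adj] {q : ℕ}

namespace XC

omit [Fintype V] [DecidableEq V] in
theorem ad_comm (x y : V) : ad G x y = ad G y x := by
  unfold ad
  simp only [G.adj_comm]

omit [Fintype V] in
theorem kn_eq (x z : V) : kn G q x z = (q - 1) * (if x = z then 1 else 0) + 1 - ad G x z := by
  unfold kn ad
  by_cases h1 : x = z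
  · subst h1
    simp
  · by_cases h2 : G.Adj x z <;> simp [h1, h2]

/-- the number of neighbours in a block -/
theorem nb (h : Hi G q) {C : Finset V} (hC : Blk G q C) (u : V) :
    ∑ z ∈ C, ad G u z = 2 + (q - 1) * (if u ∈ C then 1 else 0) := by
  by_cases hu : u ∈ C
  · rw [if_pos hu]
    have h1 : ∑ z ∈ C, ad G u z = ∑ z ∈ C.erase u, (1 : ℚ) := by
      rw [← Finset.add_sum_erase C _ hu]
      have h2 : ad G u u = 0 := by unfold ad; simp
      rw [h2, zero_add]
      refine Finset.sum_congr rfl fun z hz => ?_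
      rw [Finset.mem_erase] at hz
      unfold ad
      rw [if_pos (hC.2 u hu z hz.2 hz.1.symm)]
    rw [h1, Finset.sum_const, Finset.card_erase_of_mem hu, hC.1]
    have h3 : q + 2 - 1 = q + 1 := rfl
    rw [h3]
    simp
    ring
  · rw [if_neg hu, h.out C hC u hu]
    ring

end XC

theorem Hi.kn_bal (h : Hi G q) (x : V) : Bal G q (kn G q x) q := by
  intro C hC
  have h1 : ∑ z ∈ C, kn G q x z = ∑ z ∈ C, ((q - 1) * (if x = z then 1 else 0) + 1 - ad G x z) :=
    Finset.sum_congr rfl fun z _ => XC.kn_eq x z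
  rw [h1, Finset.sum_sub_distrib, Finset.sum_add_distrib, ← Finset.mul_sum, XC.nb h hC,
    Finset.sum_ite_eq, Finset.sum_const, hC.1]
  simp
  ring

theorem Hi.be_bal (h : Hi G q) {x y : V} (hne : x ≠ y) (hn : ¬ G.Adj x y) :
    Bal G q (be G q x y) (4 * (q ^ 2 + 1)) := by
  intro C hC
  have h1 : ∑ z ∈ C, al G x y z = ∑ u, ad G x u * ad G y u *
      (2 + (q - 1) * (if u ∈ C then 1 else 0)) := by
    unfold al
    rw [Finset.sum_comm]
    refine Finset.sum_congr rfl fun u _ => ?_
    rw [← XC.nb h hC u, Finset.mul_sum]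
    refine Finset.sum_congr rfl fun z _ => ?_
    rw [XC.ad_comm z u]
  have h2 : ∑ z ∈ C, be G q x y z = ∑ z ∈ C, al G x y z -
      (q - 1) * ∑ z ∈ C, ad G x z * ad G y z := by
    unfold be
    rw [Finset.sum_sub_distrib, Finset.mul_sum]
  have h3 : ∑ u, ad G x u * ad G y u * (2 + (q - 1) * (if u ∈ C then 1 else 0)) =
      2 * (∑ u, ad G x u * ad G y u) + (q - 1) * ∑ z ∈ C, ad G x z * ad G y z := by
    rw [Finset.mul_sum, Finset.mul_sum]
    have h4 : ∑ z ∈ C, ((q : ℚ) - 1) * (ad G x z * ad G y z) =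
        ∑ z, if z ∈ C then ((q : ℚ) - 1) * (ad G x z * ad G y z) else 0 := by
      rw [Finset.sum_ite_mem, Finset.univ_inter]
    rw [h4, ← Finset.sum_add_distrib]
    refine Finset.sum_congr rfl fun u _ => ?_
    by_cases hu : u ∈ C
    · simp only [hu, if_true]; ring
    · simp only [hu, if_false]; ring
  rw [h2, h1, h3, h.mu x y hne hn]
  ring

theorem Hi.tt_bal (h : Hi G q) (x y : V) : Bal G q (tt G q x y) (q * kn G q x y) := by
  intro C hC
  by_cases hxy : x = y
  · subst hxy
    have h1 : ∀ z, tt G q x x z = q * kn G q x z := fun z => by unfold tt; rw [if_pos rfl]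
    simp only [h1]
    rw [← Finset.mul_sum, h.kn_bal x C hC]
    unfold kn
    rw [if_pos rfl]
  · by_cases ha : G.Adj x y
    · have h1 : ∀ z, tt G q x y z = 0 := fun z => by unfold tt; rw [if_neg hxy, if_pos ha]
      simp only [h1]
      unfold kn
      rw [if_neg hxy, if_pos ha]
      simp
    · have h1 : ∀ z, tt G q x y z = 1 + q * kn G q x z + q * kn G q y z - be G q x y z / 2 :=
        fun z => by unfold tt; rw [if_neg hxy, if_neg ha]
      simp only [h1]
      rw [Finset.sum_sub_distrib, Finset.sum_add_distrib, Finset.sum_add_distrib,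
        ← Finset.mul_sum, ← Finset.mul_sum, h.kn_bal x C hC, h.kn_bal y C hC, ← Finset.sum_div,
        h.be_bal hxy ha C hC, Finset.sum_const, hC.1]
      have h2 : kn G q x y = 1 := by unfold kn; rw [if_neg hxy, if_neg ha]
      rw [h2]
      simp
      ring

end Pool.Agent.MP3c1a32
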