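import Pool.Agent.Lib.MP_3c1a32_coX.XB
import Pool.Agent.Lib.MP_3c1a32_coX.XC

/-! MP_3c1a32_co: the values of the triple product -/

namespace Pool.Agent.MP3c1a32

open Finset

variable {V : Type} [Fintype V] [DecidableEq V] {G : SimpleGraph V} [DecidableRel G.Adj] {q : ℕ}

namespace XD

omit [Fintype V] [DecidableEq V] in
theorem ad_one {x y : V} (hxy : G.Adj x y) : ad G x y = 1 := by
  unfold ad
  exact if_pos hxy

omit [Fintype V] [DecidableEq V] in
theorem ad_zero {x y : V} (hxy : ¬ G.Adj x y) : ad G x y = 0 := by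
  unfold ad
  exact if_neg hxy

omit [Fintype V] [DecidableEq V] in
theorem ad_sq (x y : V) : ad G x y * ad G x y = ad G x y := by
  unfold ad
  split_ifs <;> simp

omit [Fintype V] in
theorem kn_self (x : V) : kn G q x x = q := by
  unfold kn
  exact if_pos rfl

omit [Fintype V] in
theorem kn_adj {x y : V} (hxy : G.Adj x y) : kn G q x y = 0 := by
  unfold kn
  rw [if_neg hxy.ne, if_pos hxy]

omit [Fintype V] in
theorem kn_non {x y : V} (hne : x ≠ y) (hn : ¬ G.Adj x y) : kn G q x y = 1 := by
  unfold kn
  rw [if_neg hne, if_neg hn]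

omit [Fintype V] in
theorem kn_comm (x y : V) : kn G q x y = kn G q y x := by
  unfold kn
  simp only [G.adj_comm x y, eq_comm (a := x) (b := y)]

omit [DecidableEq V] in
theorem al_swap (x y z : V) : al G x y z = al G y x z := by
  unfold al
  exact Finset.sum_congr rfl fun u _ => by ring

omit [DecidableEq V] in
theorem al_right (x y z : V) : al G x y z = al G x z y := by
  unfold al
  exact Finset.sum_congr rfl fun u _ => by ring

theorem tt_same (x z : V) : tt G q x x z = q * kn G q x z := by
  unfold tt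
  exact if_pos rfl

theorem tt_adj {x y : V} (hxy : G.Adj x y) (z : V) : tt G q x y z = 0 := by
  unfold tt
  rw [if_neg hxy.ne, if_pos hxy]

theorem tt_non {x y : V} (hne : x ≠ y) (hn : ¬ G.Adj x y) (z : V) :
    tt G q x y z = 1 + q * kn G q x z + q * kn G q y z - be G q x y z / 2 := by
  unfold tt
  rw [if_neg hne, if_neg hn]

end XD

/-- `z` is adjacent to `x` but not to `y` -/
theorem Hi.al_adj (h : Hi G q) {x y z : V} (hxy : x ≠ y) (hn : ¬ G.Adj x y) (hyz : y ≠ z)
    (hxz : G.Adj x z) (hnyz : ¬ G.Adj y z) : al G x y z = 2 * (q + 1) := by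
  have h1 := h.edge_sum (h.kn_bal y) hxz
  rw [XD.kn_non hxy.symm (fun hh => hn hh.symm), XD.kn_non hyz hnyz] at h1
  have h2 : ∀ u, ad G x u * ad G z u * kn G q y u =
      ((q : ℚ) - 1) * (if u = y then ad G x y * ad G z y else 0) + ad G x u * ad G z u -
        ad G x u * ad G y u * ad G z u := by
    intro u
    by_cases h3 : u = y
    · subst h3
      rw [if_pos rfl, XD.kn_self, XB.ad_self]
      ring
    · rw [if_neg h3]
      by_cases h4 : G.Adj y u
      · rw [XD.kn_adj h4, XD.ad_one h4]
        ring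
      · rw [XD.kn_non (Ne.symm h3) h4, XD.ad_zero h4]
        ring
  rw [Finset.sum_congr rfl fun u _ => h2 u, Finset.sum_sub_distrib, Finset.sum_add_distrib,
    ← Finset.mul_sum, Finset.sum_ite_eq', h.lam x z hxz, XD.ad_zero hn] at h1
  have h5 : al G x y z = ∑ u, ad G x u * ad G y u * ad G z u := rfl
  rw [h5]
  simp only [Finset.mem_univ, if_true, zero_mul, mul_zero, zero_add] at h1
  linarith

theorem Hi.tt_comm (h : Hi G q) (x y z : V) : tt G q x y z = tt G q y x z := by
  by_cases hxy : x = y
  · subst hxy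
    rfl
  · by_cases hn : G.Adj x y
    · rw [XD.tt_adj hn, XD.tt_adj hn.symm]
    · rw [XD.tt_non hxy hn, XD.tt_non (Ne.symm hxy) (fun hh => hn hh.symm)]
      unfold be
      rw [XD.al_swap x y z]
      ring

namespace XD

theorem tt_right_same (h : Hi G q) (x z : V) : tt G q x x z = tt G q x z x := by
  by_cases hxz : x = z
  · subst hxz
    rfl
  · by_cases hn : G.Adj x z
    · rw [tt_same, tt_adj hn, kn_adj hn]
      ring
    · rw [tt_same, tt_non hxz hn, kn_self, kn_non hxz hn,
        kn_non (Ne.symm hxz) (fun hh => hn hh.symm)]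
      have h1 : al G x z x = 2 * ((q : ℚ) ^ 2 + 1) := by
        rw [← h.mu x z hxz hn]
        unfold al
        refine Finset.sum_congr rfl fun u _ => ?_
        calc ad G x u * ad G z u * ad G x u = (ad G x u * ad G x u) * ad G z u := by ring
          _ = ad G x u * ad G z u := by rw [ad_sq]
      unfold be
      rw [h1, XB.ad_self]
      ring

theorem tt_right_adj (h : Hi G q) {x y z : V} (hxz : x ≠ z) (hyz : y ≠ z) (hxy : G.Adj x y) :
    tt G q x z y = 0 := by
  by_cases hn : G.Adj x z
  · exact tt_adj hn y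
  · rw [tt_non hxz hn, kn_adj hxy]
    unfold be
    rw [ad_one hxy]
    by_cases h1 : G.Adj z y
    · rw [h.mu2 x z y hxz hn hxy h1, kn_adj h1, ad_one h1]
      ring
    · rw [h.al_adj hxz hn (Ne.symm hyz) hxy h1, kn_non (Ne.symm hyz) h1, ad_zero h1]
      ring

end XD

theorem Hi.tt_right (h : Hi G q) (x y z : V) : tt G q x y z = tt G q x z y := by
  by_cases hxy : x = y
  · subst hxy
    exact XD.tt_right_same h x z
  · by_cases hxz : x = z
    · subst hxz
      exact (XD.tt_right_same h x y).symm
    · by_cases hyz : y = z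
      · subst hyz
        rfl
      · by_cases h1 : G.Adj x y
        · rw [XD.tt_adj h1, XD.tt_right_adj h hxz hyz h1]
        · by_cases h2 : G.Adj x z
          · rw [XD.tt_adj h2, XD.tt_right_adj h hxy (Ne.symm hyz) h2]
          · rw [XD.tt_non hxy h1, XD.tt_non hxz h2, XD.kn_non hxz h2, XD.kn_non hxy h1,
              XD.kn_comm y z]
            unfold be
            rw [XD.al_right x y z, XD.ad_zero h1, XD.ad_zero h2]
            ring

theorem Hi.tt_zero (h : Hi G q) {x y : V} (hxy : G.Adj x y) (z : V) : tt G q x z y = 0 := by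
  rw [h.tt_right x z y]
  exact XD.tt_adj hxy z

theorem Hi.tt_self (h : Hi G q) {x y : V} (hne : x ≠ y) (hn : ¬ G.Adj x y) :
    tt G q x y x = q := by
  rw [← XD.tt_right_same h x y, XD.tt_same, XD.kn_non hne hn, mul_one]

end Pool.Agent.MP3c1a32
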