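import Pool.Agent.Lib.MP_3c1a32_coL.LDefs

/-! MP_3c1a32_co, strongly regular graphs that are locally `GQ(q,q)` with `μ = 2 (q² + 1)`:
definitions -/

namespace Pool.Agent.MP3c1a32

open Finset

variable {V : Type} [Fintype V] [DecidableEq V] (G : SimpleGraph V) [DecidableRel G.Adj] (q : ℕ)

/-- a block: a clique with `q + 2` vertices -/
def Blk (C : Finset V) : Prop := C.card = q + 2 ∧ ∀ a ∈ C, ∀ b ∈ C, a ≠ b → G.Adj a b

/-- the adjacency indicator -/
def ad (x y : V) : ℚ := if G.Adj x y then 1 else 0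

/-- the kernel `q I + (J - I - A)` -/
def kn (x y : V) : ℚ := if x = y then (q : ℚ) else if G.Adj x y then 0 else 1

/-- the number of common neighbours of three vertices -/
def al (x y z : V) : ℚ := ∑ u, ad G x u * ad G y u * ad G z u

/-- the balanced function in the formula for the triple product -/
def be (x y z : V) : ℚ := al G x y z - (q - 1) * (ad G x z * ad G y z)

/-- the triple product -/
def tt (x y z : V) : ℚ :=
  if x = y then q * kn G q x z else if G.Adj x y then 0 else
    1 + q * kn G q x z + q * kn G q y z - be G q x y z / 2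

/-- `f` has the sum `c` on every block -/
def Bal (f : V → ℚ) (c : ℚ) : Prop := ∀ C : Finset V, Blk G q C → ∑ z ∈ C, f z = c

/-- the inner product of two functions with block sums `c` and `d` -/
def ip (f g : V → ℚ) (c d : ℚ) : ℚ :=
  (∑ z, f z * g z - (q : ℚ) * (q - 1) / 2 * c * d) / (q * (q + 1))

/-- the fourfold product -/
def ss (x y z w : V) : ℚ := ip q (tt G q x y) (tt G q z w) (q * kn G q x y) (q * kn G q z w)

/-- the facts about the graph that we use -/
structure Hi : Prop where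
  two_le : 2 ≤ q
  card : 2 * (Fintype.card V : ℚ) = (q + 2) * (q ^ 3 + q ^ 2 + 2)
  deg : ∀ x, ∑ z, ad G x z = (q + 1) * (q ^ 2 + 1)
  lam : ∀ x y, G.Adj x y → ∑ z, ad G x z * ad G y z = q * (q + 1)
  mu : ∀ x y, x ≠ y → ¬ G.Adj x y → ∑ z, ad G x z * ad G y z = 2 * (q ^ 2 + 1)
  mu2 : ∀ x y z, x ≠ y → ¬ G.Adj x y → G.Adj x z → G.Adj y z → al G x y z = q + 1
  edge : ∀ x y, G.Adj x y → ∃ C, Blk G q C ∧ x ∈ C ∧ y ∈ C
  tri : ∀ x y z, G.Adj x y → G.Adj x z → G.Adj y z → ∃ C, Blk G q C ∧
    ∀ w, w ∈ C ↔ ((w = x ∨ G.Adj x w) ∧ (w = y ∨ G.Adj y w) ∧ (w = z ∨ G.Adj z w))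
  out : ∀ C, Blk G q C → ∀ y, y ∉ C → ∑ z ∈ C, ad G y z = 2

/-- the function `f` is supported on the vertices at distance two from `x` and has the sum zero
on every block -/
structure InW (x : V) (f : V → ℚ) : Prop where
  bal : Bal G q f 0
  self : f x = 0
  adj : ∀ z, G.Adj x z → f z = 0

end Pool.Agent.MP3c1a32
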