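import Pool.Agent.Lib.MP_3c1a32_coX.XB
import Pool.Agent.Lib.MP_3c1a32_coX.XC

/-! MP_3c1a32_co: orthogonality -/

namespace Pool.Agent.MP3c1a32

open Finset

variable {V : Type} [Fintype V] [DecidableEq V] {G : SimpleGraph V} [DecidableRel G.Adj] {q : ℕ}

/-- the projection of `f` to the span of the kernels at the neighbours of `y` -/
def pr (G : SimpleGraph V) [DecidableRel G.Adj] (q : ℕ) (y : V) (f : V → ℚ) (u : V) : ℚ :=
  (∑ z, ad G y z * f z * kn G q z u) / (2 * q)

namespace XEaux

theorem ad_symm (x y : V) : ad G x y = ad G y x := by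
  unfold ad
  simp only [G.adj_comm]

theorem ad_of_adj {x y : V} (h : G.Adj x y) : ad G x y = 1 := by
  unfold ad
  rw [if_pos h]

theorem kn_eq (z u : V) : kn G q z u =
    ((q : ℚ) - 1) * (if z = u then 1 else 0) + 1 - ad G u z := by
  unfold kn ad
  by_cases h : z = u
  · subst h
    simp
  · by_cases h2 : G.Adj z u
    · simp [h, h2, h2.symm]
    · have h3 : ¬ G.Adj u z := fun h4 => h2 h4.symm
      simp [h, h2, h3]

theorem q_pos (h : Hi G q) : (0 : ℚ) < q := by
  have := h.two_le
  exact_mod_cast (by omega : 0 < q)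

end XEaux

open XEaux

/-- the projection agrees with `f` on the neighbours of `y` -/
theorem Hi.pr_eq (h : Hi G q) {f : V → ℚ} (hf : Bal G q f 0) {y u : V} (hy : f y = 0)
    (hu : G.Adj y u) : pr G q y f u = f u := by
  have hq := q_pos h
  have h1 : ∑ z, ad G y z * f z * kn G q z u =
      ((q : ℚ) - 1) * (ad G y u * f u) + ∑ z, ad G y z * f z -
        ∑ z, ad G y z * ad G u z * f z := by
    have e : ∀ z, ad G y z * f z * kn G q z u =
        ((q : ℚ) - 1) * (if z = u then ad G y z * f z else 0) + ad G y z * f z -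
          ad G y z * ad G u z * f z := by
      intro z
      rw [kn_eq]
      by_cases h2 : z = u
      · rw [if_pos h2, if_pos h2]
        ring
      · rw [if_neg h2, if_neg h2]
        ring
    rw [Finset.sum_congr rfl fun z _ => e z, Finset.sum_sub_distrib, Finset.sum_add_distrib,
      ← Finset.mul_sum, Finset.sum_ite_eq' Finset.univ u, if_pos (Finset.mem_univ u)]
  unfold pr
  rw [h1, h.nbr_sum hf, h.edge_sum hf hu, hy, ad_of_adj hu]
  field_simp
  ring

/-- the inner product of a balanced function and the projection -/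
theorem Hi.sum_pr (h : Hi G q) {f g : V → ℚ} (hf : Bal G q f 0) (hg : Bal G q g 0) (y : V) :
    ∑ u, g u * pr G q y f u = (q + 1) / 2 * ∑ z, ad G y z * f z * g z := by
  have hq := q_pos h
  have h1 : ∀ z, ∑ u, g u * kn G q z u = q * (q + 1) * g z := by
    intro z
    have h2 := h.rep hg z
    unfold ip at h2
    have h3 : (q : ℚ) * (q + 1) ≠ 0 := by positivity
    rw [div_eq_iff h3] at h2
    linear_combination h2
  have h4 : ∑ u, g u * pr G q y f u =
      (∑ z, ad G y z * f z * ∑ u, g u * kn G q z u) / (2 * q) := by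
    unfold pr
    rw [Finset.sum_div]
    have e : ∀ u, g u * ((∑ z, ad G y z * f z * kn G q z u) / (2 * q)) =
        ∑ z, ad G y z * f z * (g u * kn G q z u) / (2 * q) := by
      intro u
      rw [Finset.sum_div, Finset.mul_sum]
      refine Finset.sum_congr rfl fun z _ => ?_
      ring
    rw [Finset.sum_congr rfl fun u _ => e u, Finset.sum_comm]
    refine Finset.sum_congr rfl fun z _ => ?_
    rw [Finset.mul_sum, Finset.sum_div]
  rw [h4, Finset.sum_congr rfl fun z _ => by rw [h1 z], Finset.sum_div, Finset.mul_sum]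
  refine Finset.sum_congr rfl fun z _ => ?_
  field_simp

theorem XEaux.pr_bal (h : Hi G q) {f : V → ℚ} (hf : Bal G q f 0) {y : V} (hy : f y = 0) :
    Bal G q (pr G q y f) 0 := by
  intro C hC
  have hq := q_pos h
  unfold pr
  rw [← Finset.sum_div, Finset.sum_comm]
  have e : ∀ z, ∑ u ∈ C, ad G y z * f z * kn G q z u = ad G y z * f z * q := by
    intro z
    rw [← Finset.mul_sum, h.kn_bal z C hC]
  rw [Finset.sum_congr rfl fun z _ => e z, ← Finset.sum_mul, h.nbr_sum hf, hy]
  simp

/-- Pythagoras -/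
theorem Hi.pyth (h : Hi G q) {f : V → ℚ} (hf : Bal G q f 0) {y : V} (hy : f y = 0) :
    ∑ u, (f u - pr G q y f u) ^ 2 = ∑ u, f u ^ 2 - (q + 1) / 2 * ∑ z, ad G y z * f z ^ 2 := by
  have h1 := h.sum_pr hf hf y
  have h2 := h.sum_pr hf (XEaux.pr_bal h hf hy) y
  have h3 : ∑ z, ad G y z * f z * pr G q y f z = ∑ z, ad G y z * f z ^ 2 := by
    refine Finset.sum_congr rfl fun z _ => ?_
    by_cases hz : G.Adj y z
    · rw [h.pr_eq hf hy hz]
      ring
    · unfold ad
      rw [if_neg hz]
      ring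
  have h4 : ∑ z, ad G y z * f z * f z = ∑ z, ad G y z * f z ^ 2 :=
    Finset.sum_congr rfl fun z _ => by ring
  rw [h4] at h1
  rw [h3] at h2
  have h5 : ∑ u, (f u - pr G q y f u) ^ 2 =
      ∑ u, f u ^ 2 - 2 * ∑ u, f u * pr G q y f u + ∑ u, pr G q y f u * pr G q y f u := by
    rw [Finset.mul_sum, ← Finset.sum_sub_distrib, ← Finset.sum_add_distrib]
    refine Finset.sum_congr rfl fun u _ => ?_
    ring
  rw [h5, h1, h2]
  ring

/-- double counting over a block -/
theorem Hi.blk_sq (h : Hi G q) {x : V} {f : V → ℚ} (hf : InW G q x f) {C : Finset V}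
    (hC : Blk G q C) (hx : x ∈ C) :
    ∑ y ∈ C, ∑ z, ad G y z * f z ^ 2 = 2 * ∑ u, f u ^ 2 := by
  rw [Finset.sum_comm, Finset.mul_sum]
  refine Finset.sum_congr rfl fun z _ => ?_
  rw [← Finset.sum_mul]
  by_cases hz : z ∈ C
  · have h0 : f z = 0 := by
      by_cases hzx : z = x
      · rw [hzx, hf.self]
      · exact hf.adj z (hC.2 x hx z hz (Ne.symm hzx))
    rw [h0]
    ring
  · have h1 : ∑ y ∈ C, ad G y z = 2 := by
      rw [← h.out C hC z hz]
      exact Finset.sum_congr rfl fun y _ => ad_symm y z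
    rw [h1]

end Pool.Agent.MP3c1a32
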