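import Pool.Agent.Lib.MP_3c1a32_coX.XE

/-! MP_3c1a32_co: XE2 -/

namespace Pool.Agent.MP3c1a32

open Finset

variable {V : Type} [Fintype V] [DecidableEq V] {G : SimpleGraph V} [DecidableRel G.Adj] {q : ℕ}

/-- a function in `W x` is its own projection for every neighbour `y` of `x` -/
theorem Hi.eq_pr (h : Hi G q) {x y : V} (hxy : G.Adj x y) {f : V → ℚ} (hf : InW G q x f) (u : V) :
    f u = pr G q y f u := by
  classical
  obtain ⟨C, hC, hxC, hyC⟩ := h.edge x y hxy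
  have hzero : ∀ z ∈ C, f z = 0 := by
    intro z hz
    by_cases hzx : z = x
    · rw [hzx]
      exact hf.self
    · exact hf.adj z (hC.2 x hxC z hz (Ne.symm hzx))
  have hsum : ∑ z ∈ C, ∑ u, (f u - pr G q z f u) ^ 2 = ∑ u, f u ^ 2 := by
    have h1 : ∀ z ∈ C, ∑ u, (f u - pr G q z f u) ^ 2 =
        ∑ u, f u ^ 2 - (q + 1) / 2 * ∑ w, ad G z w * f w ^ 2 := fun z hz =>
      h.pyth hf.bal (hzero z hz)
    rw [sum_congr rfl h1, sum_sub_distrib, ← mul_sum, h.blk_sq hf hC hxC, sum_const, hC.1,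
      nsmul_eq_mul]
    push_cast
    ring
  have hx : ∑ u, (f u - pr G q x f u) ^ 2 = ∑ u, f u ^ 2 := by
    rw [h.pyth hf.bal hf.self]
    have h1 : ∑ w, ad G x w * f w ^ 2 = 0 := by
      refine sum_eq_zero fun w _ => ?_
      by_cases hw : G.Adj x w
      · rw [hf.adj w hw]
        ring
      · unfold ad
        rw [if_neg hw, zero_mul]
    rw [h1]
    ring
  rw [← add_sum_erase C _ hxC, hx] at hsum
  have hrest : ∑ z ∈ C.erase x, ∑ u, (f u - pr G q z f u) ^ 2 = 0 := by linarith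
  have hnn : ∀ z ∈ C.erase x, 0 ≤ ∑ u, (f u - pr G q z f u) ^ 2 := fun z _ =>
    sum_nonneg fun u _ => sq_nonneg _
  have hy : y ∈ C.erase x := mem_erase.2 ⟨hxy.ne', hyC⟩
  have h2 := (sum_eq_zero_iff_of_nonneg hnn).1 hrest y hy
  have h3 := (sum_eq_zero_iff_of_nonneg (fun u _ => sq_nonneg (f u - pr G q y f u))).1 h2 u
    (mem_univ u)
  have h4 : f u - pr G q y f u = 0 := by
    exact pow_eq_zero_iff (two_ne_zero) |>.1 h3
  linarith

/-- `W x` and `W y` are orthogonal for adjacent `x` and `y` -/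
theorem Hi.orth (h : Hi G q) {x y : V} (hxy : G.Adj x y) {f g : V → ℚ} (hf : InW G q x f)
    (hg : InW G q y g) : ∑ u, f u * g u = 0 := by
  have h1 : ∑ u, f u * g u = ∑ u, g u * pr G q y f u := by
    refine sum_congr rfl fun u _ => ?_
    rw [← h.eq_pr hxy hf u]
    ring
  rw [h1, h.sum_pr hf.bal hg.bal y]
  have h2 : ∑ z, ad G y z * f z * g z = 0 := by
    refine sum_eq_zero fun z _ => ?_
    by_cases hz : G.Adj y z
    · rw [hg.adj z hz, mul_zero]
    · unfold ad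
      rw [if_neg hz, zero_mul, zero_mul]
  rw [h2, mul_zero]

/-- the uniqueness lemma -/
theorem Hi.zero (h : Hi G q) {F : V → V → ℚ} (h0 : ∀ x, F x x = 0)
    (h1 : ∀ x y, G.Adj x y → F x y = 0) (h2 : ∀ x, Bal G q (F x) 0)
    (h3 : ∀ y, Bal G q (fun x => F x y) 0) (x y : V) : F x y = 0 := by
  classical
  have hW : ∀ x, InW G q x (F x) := fun x => ⟨h2 x, h0 x, fun z hz => h1 x z hz⟩
  obtain ⟨z, hz⟩ : ∃ z, G.Adj x z := by
    by_contra hcon
    push Not at hcon
    have h4 := h.deg x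
    have h5 : ∑ z, ad G x z = 0 := by
      refine sum_eq_zero fun z _ => ?_
      unfold ad
      rw [if_neg (hcon z)]
    rw [h5] at h4
    have h6 : (0 : ℚ) < (q + 1) * (q ^ 2 + 1) := by positivity
    linarith
  obtain ⟨C, hC, hxC, -⟩ := h.edge x z hz
  have h4 : ∑ i ∈ C, ∑ y, F i y * F x y = 0 := by
    rw [sum_comm]
    refine sum_eq_zero fun y _ => ?_
    rw [← sum_mul, h3 y C hC, zero_mul]
  rw [← add_sum_erase C _ hxC] at h4
  have h5 : ∑ i ∈ C.erase x, ∑ y, F i y * F x y = 0 := by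
    refine sum_eq_zero fun i hi => ?_
    obtain ⟨hix, hiC⟩ := mem_erase.1 hi
    exact h.orth (hC.2 i hiC x hxC hix) (hW i) (hW x)
  rw [h5, add_zero] at h4
  have h6 := (sum_eq_zero_iff_of_nonneg (fun y _ => mul_self_nonneg (F x y))).1 h4 y (mem_univ y)
  exact mul_self_eq_zero.1 h6

end Pool.Agent.MP3c1a32
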