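import Pool.Agent.Lib.MP_3c1a32_coX.XD
import Pool.Agent.Lib.MP_3c1a32_coX.XE2

/-! MP_3c1a32_co: the fourfold product -/

namespace Pool.Agent.MP3c1a32

open Finset

set_option linter.unusedSectionVars false

variable {V : Type} [Fintype V] [DecidableEq V] {G : SimpleGraph V} [DecidableRel G.Adj] {q : ℕ}

theorem xg_ad_comm (x y : V) : ad G x y = ad G y x := by
  unfold ad
  simp only [G.adj_comm x y]

theorem xg_ad_mul (f : V → ℚ) (x : V) (hadj : ∀ z, G.Adj x z → f z = 0) (z : V) :
    ad G x z * f z = 0 := by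
  unfold ad
  by_cases hz : G.Adj x z
  · rw [hadj z hz, mul_zero]
  · rw [if_neg hz, zero_mul]

theorem xg_ip_comm (f g : V → ℚ) (c d : ℚ) : ip q f g c d = ip q g f d c := by
  unfold ip
  have h1 : ∑ z, f z * g z = ∑ z, g z * f z := Finset.sum_congr rfl fun z _ => mul_comm _ _
  rw [h1]
  ring

theorem xg_ip_smul (f g : V → ℚ) (c d a : ℚ) :
    ip q f (fun z => a * g z) c (a * d) = a * ip q f g c d := by
  unfold ip
  have h1 : ∑ z, f z * (a * g z) = a * ∑ z, f z * g z := by
    rw [Finset.mul_sum]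
    exact Finset.sum_congr rfl fun z _ => by ring
  rw [h1]
  ring

theorem xg_kn_self (x : V) : kn G q x x = q := if_pos rfl

theorem xg_kn_adj {x y : V} (h : G.Adj x y) : kn G q x y = 0 := by
  unfold kn
  rw [if_neg h.ne, if_pos h]

theorem xg_kn_non {x y : V} (hne : x ≠ y) (h : ¬ G.Adj x y) : kn G q x y = 1 := by
  unfold kn
  rw [if_neg hne, if_neg h]

theorem xg_tt_same (x : V) : tt G q x x = fun z => q * kn G q x z := by
  funext z
  unfold tt
  rw [if_pos rfl]

theorem xg_tt_adj {x y : V} (h : G.Adj x y) (z : V) : tt G q x y z = 0 := by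
  unfold tt
  rw [if_neg h.ne, if_pos h]

theorem Hi.xg_tt_self (h : Hi G q) (x z : V) : tt G q x z x = q * kn G q x z := by
  by_cases hxz : x = z
  · subst hxz
    rw [xg_tt_same]
  · by_cases hn : G.Adj x z
    · rw [xg_tt_adj hn, xg_kn_adj hn, mul_zero]
    · rw [h.tt_self hxz hn, xg_kn_non hxz hn, mul_one]

/-- the sum of a balanced function that vanishes at the neighbours of `x` with `be` -/
theorem Hi.xg_be (h : Hi G q) {x : V} {f : V → ℚ} {c : ℚ} (hf : Bal G q f c)
    (hadj : ∀ z, G.Adj x z → f z = 0) {w : V} (hne : x ≠ w) (hn : ¬ G.Adj x w) :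
    ∑ z, f z * be G q x w z = 2 * (q ^ 2 + 1) ^ 2 * c := by
  have h1 : ∀ z, f z * be G q x w z = ∑ u, ad G x u * ad G w u * (ad G u z * f z) := by
    intro z
    have e := xg_ad_mul f x hadj z
    have h2 : ∑ u, ad G x u * ad G w u * (ad G u z * f z) = f z * al G x w z := by
      unfold al
      rw [Finset.mul_sum]
      refine Finset.sum_congr rfl fun u _ => ?_
      rw [xg_ad_comm u z]
      ring
    rw [h2]
    unfold be
    linear_combination (-(((q : ℚ) - 1) * ad G w z)) * e
  rw [Finset.sum_congr rfl fun z _ => h1 z, Finset.sum_comm]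
  have h3 : ∀ u, ∑ z, ad G x u * ad G w u * (ad G u z * f z) =
      (ad G x u * ad G w u) * (((q : ℚ) ^ 2 + 1) * c) := by
    intro u
    rw [← Finset.mul_sum, h.nbr_sum hf u]
    have e := xg_ad_mul f x hadj u
    linear_combination (-(((q : ℚ) ^ 2 + 1) * ad G w u)) * e
  rw [Finset.sum_congr rfl fun u _ => h3 u, ← Finset.sum_mul, h.mu x w hne hn]
  ring

/-- the reproducing property of the triple product on functions that vanish at the neighbours
of `x` -/
theorem Hi.rep_tt (h : Hi G q) {x : V} {f : V → ℚ} {c : ℚ} (hf : Bal G q f c) (hx : f x = c)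
    (hadj : ∀ z, G.Adj x z → f z = 0) (w : V) :
    ip q f (tt G q x w) c (q * kn G q x w) = q * f w := by
  by_cases hxw : x = w
  · subst hxw
    rw [xg_tt_same, xg_kn_self, xg_ip_smul, h.rep hf]
  by_cases hn : G.Adj x w
  · rw [hadj w hn, xg_kn_adj hn]
    unfold ip
    rw [Finset.sum_congr rfl fun z _ => by rw [xg_tt_adj hn z, mul_zero]]
    simp
  · rw [xg_kn_non hxw hn]
    have hq : (2 : ℚ) ≤ q := by exact_mod_cast h.two_le
    have hq0 : (q : ℚ) ≠ 0 := by linarith
    have hq1 : (q : ℚ) + 1 ≠ 0 := by linarith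
    have e1 := h.rep_one hf
    have e2 := h.rep hf x
    have e3 := h.rep hf w
    have e4 := h.xg_be hf hadj hxw hn
    have e5 : ∑ z, f z * tt G q x w z = ∑ z, f z * (fun _ => (1 : ℚ)) z +
        q * ∑ z, f z * kn G q x z + q * ∑ z, f z * kn G q w z -
        (∑ z, f z * be G q x w z) / 2 := by
      rw [Finset.mul_sum, Finset.mul_sum, Finset.sum_div, ← Finset.sum_add_distrib,
        ← Finset.sum_add_distrib, ← Finset.sum_sub_distrib]
      refine Finset.sum_congr rfl fun z _ => ?_
      unfold tt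
      rw [if_neg hxw, if_neg hn]
      ring
    unfold ip at e1 e2 e3 ⊢
    rw [div_eq_iff (mul_ne_zero hq0 hq1)] at e1 e2 e3 ⊢
    have e1' : ∑ z, f z * (fun _ => (1 : ℚ)) z = c * (q + 1) + q * (q - 1) / 2 * c * (q + 2) := by
      have : c / (q : ℚ) * (q * (q + 1)) = c * (q + 1) := by
        field_simp
      linarith
    rw [e5, e4]
    rw [hx] at e2
    linear_combination e1' + q * e2 + q * e3

theorem Hi.ss_self (h : Hi G q) (x z w : V) : ss G q x x z w = q * tt G q z w x := by
  unfold ss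
  rw [xg_ip_comm, xg_tt_same, xg_kn_self, xg_ip_smul, h.rep (h.tt_bal z w)]

theorem Hi.ss_common (h : Hi G q) (x z w : V) : ss G q x z x w = q * tt G q x z w := by
  unfold ss
  exact h.rep_tt (h.tt_bal x z) (h.xg_tt_self x z) (fun u hu => h.tt_zero hu z) w

/-- the part of the triple product in `W x` -/
theorem Hi.xg_inW (h : Hi G q) (x z : V) :
    InW G q x (fun u => tt G q x z u - kn G q x z * kn G q x u) := by
  refine ⟨fun C hC => ?_, ?_, fun u hu => ?_⟩
  · rw [Finset.sum_sub_distrib, ← Finset.mul_sum, h.tt_bal x z C hC, h.kn_bal x C hC]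
    ring
  · show tt G q x z x - kn G q x z * kn G q x x = 0
    rw [h.xg_tt_self, xg_kn_self]
    ring
  · show tt G q x z u - kn G q x z * kn G q x u = 0
    rw [h.tt_zero hu z, xg_kn_adj hu]
    ring

theorem Hi.xg_sum_kn (h : Hi G q) {f : V → ℚ} (hf : Bal G q f 0) {y : V} (hy : f y = 0) :
    ∑ u, f u * kn G q y u = 0 := by
  have hq : (2 : ℚ) ≤ q := by exact_mod_cast h.two_le
  have e := h.rep hf y
  unfold ip at e
  rw [hy, div_eq_iff (mul_ne_zero (by linarith) (by linarith))] at e
  linear_combination e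

theorem Hi.ss_adj (h : Hi G q) {x y : V} (hxy : G.Adj x y) (z w : V) : ss G q x z y w = 0 := by
  have hq : (2 : ℚ) ≤ q := by exact_mod_cast h.two_le
  have h1 := h.xg_inW x z
  have h2 := h.xg_inW y w
  have e0 := h.orth hxy h1 h2
  have e1 := h.xg_sum_kn h1.bal (h1.adj y hxy)
  have e2 := h.xg_sum_kn h2.bal (h2.adj x hxy.symm)
  have e3 := h.rep (h.kn_bal x) y
  unfold ip at e3
  rw [xg_kn_adj hxy, div_eq_iff (mul_ne_zero (by linarith) (by linarith))] at e3
  unfold ss ip
  rw [div_eq_iff (mul_ne_zero (by linarith) (by linarith))]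
  have e5 : ∑ u, tt G q x z u * tt G q y w u =
      ∑ u, (tt G q x z u - kn G q x z * kn G q x u) * (tt G q y w u - kn G q y w * kn G q y u) +
      kn G q y w * ∑ u, (tt G q x z u - kn G q x z * kn G q x u) * kn G q y u +
      kn G q x z * ∑ u, (tt G q y w u - kn G q y w * kn G q y u) * kn G q x u +
      kn G q x z * kn G q y w * ∑ u, kn G q x u * kn G q y u := by
    rw [Finset.mul_sum, Finset.mul_sum, Finset.mul_sum, ← Finset.sum_add_distrib,
      ← Finset.sum_add_distrib, ← Finset.sum_add_distrib]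
    exact Finset.sum_congr rfl fun u _ => by ring
  rw [e5]
  linear_combination e0 + kn G q y w * e1 + kn G q x z * e2 + kn G q x z * kn G q y w * e3

end Pool.Agent.MP3c1a32
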