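import Pool.Agent.Lib.MP_3c1a32_coX.XG

/-! MP_3c1a32_co: the symmetry of the fourfold product -/

namespace Pool.Agent.MP3c1a32

open Finset

variable {V : Type} [Fintype V] [DecidableEq V] {G : SimpleGraph V} [DecidableRel G.Adj] {q : ℕ}

theorem ss_swap (x y z w : V) : ss G q x y z w = ss G q z w x y := by
  unfold ss
  exact xg_ip_comm _ _ _ _

theorem Hi.ss_comm (h : Hi G q) (x y z w : V) : ss G q x y z w = ss G q y x z w := by
  unfold ss
  have h1 : tt G q x y = tt G q y x := funext fun u => h.tt_comm x y u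
  have h2 : kn G q x y = kn G q y x := XD.kn_comm x y
  rw [h1, h2]

theorem Hi.ss_sum (h : Hi G q) {C : Finset V} (hC : Blk G q C) (z y w : V) :
    ∑ i ∈ C, ss G q i z y w = q * tt G q y w z := by
  have h1 : ∀ u, ∑ i ∈ C, tt G q i z u = q * kn G q z u := by
    intro u
    rw [← h.tt_bal z u C hC]
    refine Finset.sum_congr rfl fun i _ => ?_
    rw [h.tt_comm i z u, h.tt_right z i u]
  have h2 : ∑ i ∈ C, kn G q i z = q := by
    rw [← h.kn_bal z C hC]
    exact Finset.sum_congr rfl fun i _ => XD.kn_comm i z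
  have h3 : ∑ i ∈ C, ss G q i z y w = ip q (tt G q y w) (fun u => q * kn G q z u)
      (q * kn G q y w) (q * q) := by
    unfold ss ip
    rw [← Finset.sum_div, Finset.sum_sub_distrib, Finset.sum_comm]
    congr 1
    have h4 : ∑ u, ∑ i ∈ C, tt G q i z u * tt G q y w u =
        ∑ u, tt G q y w u * (q * kn G q z u) := by
      refine Finset.sum_congr rfl fun u _ => ?_
      rw [← Finset.sum_mul, h1 u, mul_comm]
    have h5 : ∑ i ∈ C, (q : ℚ) * (q - 1) / 2 * (q * kn G q i z) * (q * kn G q y w) =
        q * (q - 1) / 2 * (q * kn G q y w) * (q * q) := by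
      have h6 : ∀ i ∈ C, (q : ℚ) * (q - 1) / 2 * (q * kn G q i z) * (q * kn G q y w) =
          (q * (q - 1) / 2 * (q * kn G q y w) * q) * kn G q i z := fun i _ => by ring
      rw [Finset.sum_congr rfl h6, ← Finset.mul_sum, h2]
      ring
    rw [h4, h5]
  rw [h3, xg_ip_smul, h.rep (h.tt_bal y w)]

theorem Hi.tt_rot (h : Hi G q) (x y z : V) : tt G q x y z = tt G q y z x := by
  rw [h.tt_comm x y z, h.tt_right y x z]

theorem Hi.ss_half (h : Hi G q) (x y z w : V) :
    ss G q x z y w + ss G q y z x w = 2 * ss G q x y z w := by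
  have key := h.zero (F := fun a b => (ss G q a z b w + ss G q b z a w) / 2 - ss G q a b z w)
    ?_ ?_ ?_ ?_ x y
  · linarith
  · intro a
    rw [h.ss_common, h.ss_self, h.tt_rot a z w]
    ring
  · intro a b hab
    rw [h.ss_adj hab, h.ss_adj hab.symm]
    have h1 : ss G q a b z w = 0 := by
      unfold ss ip
      have h2 : ∀ u, tt G q a b u * tt G q z w u = 0 := fun u => by
        rw [XD.tt_adj hab, zero_mul]
      rw [Finset.sum_congr rfl fun u _ => h2 u, XD.kn_adj hab]
      simp
    rw [h1]
    ring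
  · intro a C hC
    simp only
    rw [Finset.sum_sub_distrib, ← Finset.sum_div, Finset.sum_add_distrib]
    have e1 : ∑ i ∈ C, ss G q a z i w = q * tt G q a z w := by
      rw [← h.ss_sum hC w a z]
      exact Finset.sum_congr rfl fun i _ => ss_swap a z i w
    have e2 : ∑ i ∈ C, ss G q i z a w = q * tt G q a w z := h.ss_sum hC z a w
    have e3 : ∑ i ∈ C, ss G q a i z w = q * tt G q z w a := by
      rw [← h.ss_sum hC a z w]
      exact Finset.sum_congr rfl fun i _ => h.ss_comm a i z w
    rw [e1, e2, e3, h.tt_right a w z, h.tt_rot a z w]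
    ring
  · intro b C hC
    simp only
    rw [Finset.sum_sub_distrib, ← Finset.sum_div, Finset.sum_add_distrib]
    have e1 : ∑ i ∈ C, ss G q i z b w = q * tt G q b w z := h.ss_sum hC z b w
    have e2 : ∑ i ∈ C, ss G q b z i w = q * tt G q b z w := by
      rw [← h.ss_sum hC w b z]
      exact Finset.sum_congr rfl fun i _ => ss_swap b z i w
    have e3 : ∑ i ∈ C, ss G q i b z w = q * tt G q z w b := h.ss_sum hC b z w
    rw [e1, e2, e3, h.tt_right b w z, h.tt_rot b z w]
    ring

/-- the fourfold product is symmetric -/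
theorem Hi.ss_symm (h : Hi G q) (x y z w : V) : ss G q x y z w = ss G q x z y w := by
  have h1 := h.ss_half x y z w
  have h2 := h.ss_half x z y w
  rw [h.ss_comm z y x w] at h2
  linarith

end Pool.Agent.MP3c1a32
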