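import Pool.Agent.Lib.MP_3c1a32_coX.XG2

/-! MP_3c1a32_co: the projection to the intersection of `W x` and `W y` -/

namespace Pool.Agent.MP3c1a32

open Finset

variable {V : Type} [Fintype V] [DecidableEq V] {G : SimpleGraph V} [DecidableRel G.Adj] {q : ℕ}

/-- the kernel of the projection to the intersection of `W x` and `W y` -/
def ee (G : SimpleGraph V) [DecidableRel G.Adj] (q : ℕ) (x y z w : V) : ℚ :=
  ss G q x y z w - tt G q x y z * tt G q x y w

theorem xh_kn_one {x y : V} (hne : x ≠ y) (hn : ¬ G.Adj x y) : kn G q x y = 1 := by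
  unfold kn
  rw [if_neg hne, if_neg hn]

theorem Hi.xh_ne (h : Hi G q) : (q : ℚ) * (q + 1) ≠ 0 := by
  have h2 := h.two_le
  positivity

/-- the sum of the products with a triple product -/
theorem Hi.xh_sum_tt (h : Hi G q) {x : V} {f : V → ℚ} (hf : InW G q x f) (w : V) :
    ∑ u, f u * tt G q x w u = q * (q + 1) * (q * f w) := by
  have h1 := h.rep_tt hf.bal hf.self hf.adj w
  unfold ip at h1
  rw [div_eq_iff h.xh_ne] at h1
  linear_combination h1

theorem Hi.xh_sum_kn (h : Hi G q) {x : V} {f : V → ℚ} (hf : InW G q x f) :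
    ∑ u, f u * kn G q x u = 0 := by
  have h1 := h.rep hf.bal x
  unfold ip at h1
  rw [div_eq_iff h.xh_ne, hf.self] at h1
  linear_combination h1

theorem Hi.ee_inW (h : Hi G q) {x y : V} (hne : x ≠ y) (hn : ¬ G.Adj x y) (z : V) :
    InW G q x (ee G q x y z) := by
  refine ⟨?_, ?_, ?_⟩
  · intro C hC
    have h1 : ∀ w, ee G q x y z w = ss G q w z x y - tt G q x y z * tt G q x y w := by
      intro w
      unfold ee
      rw [ss_swap x y z w, h.ss_comm z w x y]
    simp only [h1, Finset.sum_sub_distrib, ← Finset.mul_sum]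
    rw [h.ss_sum hC, h.tt_bal x y C hC, xh_kn_one hne hn]
    ring
  · unfold ee
    rw [ss_swap x y z x, h.ss_comm z x x y, h.ss_symm x z x y, h.ss_self, h.tt_self hne hn,
      h.tt_right z y x, h.tt_comm z x y, h.tt_right x z y]
    ring
  · intro w hw
    unfold ee
    rw [ss_swap x y z w, h.ss_comm z w x y, h.ss_adj hw.symm z y, h.tt_zero hw y]
    ring

theorem Hi.ee_comm (h : Hi G q) (x y z w : V) : ee G q x y z w = ee G q y x z w := by
  unfold ee
  rw [h.ss_comm x y z w, h.tt_comm x y z, h.tt_comm x y w]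

theorem Hi.ee_rep (h : Hi G q) {x y : V} (hne : x ≠ y) (hn : ¬ G.Adj x y) {f : V → ℚ}
    (hf : InW G q x f) (hf' : InW G q y f) (w : V) :
    ∑ u, f u * ee G q x y u w = q ^ 3 * (q + 1) * f w := by
  have h1 : ∀ u, f u * ee G q x y u w =
      f u * ss G q x w y u - tt G q x y w * (f u * tt G q x y u) := by
    intro u
    unfold ee
    rw [h.ss_symm x y u w, h.ss_comm x u y w, ss_swap u x y w, h.ss_symm y w u x,
      ss_swap y u w x, h.ss_comm w x y u]
    ring
  simp only [h1, Finset.sum_sub_distrib, ← Finset.mul_sum]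
  rw [h.xh_sum_tt hf y, hf'.self]
  have h2 : ∀ u, f u * ss G q x w y u =
      (∑ v, tt G q x w v * (f u * tt G q y v u) -
        (q : ℚ) * (q - 1) / 2 * (q * kn G q x w) * q * (f u * kn G q y u)) / (q * (q + 1)) := by
    intro u
    unfold ss ip
    rw [mul_div_assoc', mul_sub, Finset.mul_sum]
    have h3 : ∑ v, f u * (tt G q x w v * tt G q y u v) = ∑ v, tt G q x w v * (f u * tt G q y v u) :=
      Finset.sum_congr rfl fun v _ => by rw [h.tt_right y u v]; ring
    rw [h3]
    ring
  simp only [h2]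
  rw [← Finset.sum_div, Finset.sum_sub_distrib, ← Finset.mul_sum, h.xh_sum_kn hf', Finset.sum_comm]
  simp only [← Finset.mul_sum]
  have h4 : ∑ v, tt G q x w v * ∑ u, f u * tt G q y v u =
      q * (q + 1) * q * ∑ v, f v * tt G q x w v := by
    rw [Finset.mul_sum]
    refine Finset.sum_congr rfl fun v _ => ?_
    rw [h.xh_sum_tt hf' v]
    ring
  rw [h4, h.xh_sum_tt hf w]
  have h5 := h.xh_ne
  rw [mul_zero, sub_zero, mul_zero, mul_zero, mul_zero, sub_zero, div_eq_iff h5]
  ring

theorem Hi.ee_idem (h : Hi G q) {x y : V} (hne : x ≠ y) (hn : ¬ G.Adj x y) (z w : V) :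
    ∑ u, ee G q x y z u * ee G q x y u w = q ^ 3 * (q + 1) * ee G q x y z w := by
  refine h.ee_rep hne hn (h.ee_inW hne hn z) ?_ w
  have h1 := h.ee_inW (q := q) hne.symm (fun h' => hn h'.symm) z
  have h2 : ee G q x y z = ee G q y x z := funext fun u => h.ee_comm x y z u
  rw [h2]
  exact h1

theorem Hi.ee_trace (h : Hi G q) {x y : V} (hne : x ≠ y) (hn : ¬ G.Adj x y) :
    ∑ z, ee G q x y z z = q ^ 2 * (q - 1) * (q - 2) * (q + 1) / 2 := by
  have h1 : ∀ z, ee G q x y z z = q * tt G q x y z - tt G q x y z * tt G q x y z := by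
    intro z
    unfold ee
    rw [ss_swap x y z z, h.ss_self]
  have hk : kn G q x y = 1 := xh_kn_one hne hn
  have h2 := h.total_sum (h.tt_bal x y)
  have h3 : ss G q x y x y = q * q := by
    rw [h.ss_common, h.tt_comm x y y, h.tt_self hne.symm fun h' => hn h'.symm]
  unfold ss ip at h3
  rw [div_eq_iff h.xh_ne, hk] at h3
  rw [hk] at h2
  simp only [h1, Finset.sum_sub_distrib, ← Finset.mul_sum]
  rw [h2]
  linear_combination -h3

end Pool.Agent.MP3c1a32
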