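import Pool.Agent.Lib.MP_3c1a32_coX.XH

/-! MP_3c1a32_co: the final contradiction -/

namespace Pool.Agent.MP3c1a32

open Finset

variable {V : Type} [Fintype V] [DecidableEq V] {G : SimpleGraph V} [DecidableRel G.Adj] {q : ℕ}

/-- the trace of an idempotent matrix is a natural number -/
theorem trace_nat_rat {ι : Type} [Fintype ι] [DecidableEq ι] (M : Matrix ι ι ℚ) (hM : M * M = M) :
    ∃ n : ℕ, M.trace = n := by
  have hid : IsIdempotentElem (Matrix.toLin' M) := by
    unfold IsIdempotentElem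
    rw [Module.End.mul_eq_comp, ← Matrix.toLin'_mul, hM]
  have hp := LinearMap.IsIdempotentElem.isProj_range _ hid
  have ht := LinearMap.IsProj.trace hp
  rw [Matrix.trace_toLin'_eq] at ht
  exact ⟨_, ht⟩

theorem Hi.exists_nonadj (h : Hi G q) : ∃ x y, x ≠ y ∧ ¬ G.Adj x y := by
  have hq2 : (2 : ℚ) ≤ q := by exact_mod_cast h.two_le
  have hcard : 0 < Fintype.card V := by
    rcases Nat.eq_zero_or_pos (Fintype.card V) with h0 | h0
    · exfalso
      have h1 := h.card
      rw [h0] at h1
      have h2 : (0 : ℚ) < (q + 2) * (q ^ 3 + q ^ 2 + 2) := by positivity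
      rw [← h1] at h2
      simp at h2
    · exact h0
  have : Nonempty V := Fintype.card_pos_iff.1 hcard
  obtain ⟨x⟩ := this
  by_contra hcon
  push Not at hcon
  have h1 : ∀ z, ad G x z = 1 - (if x = z then 1 else 0) := by
    intro z
    unfold ad
    by_cases hz : x = z
    · subst hz
      simp
    · rw [if_pos (hcon x z hz), if_neg hz]
      ring
  have h2 := h.deg x
  rw [Finset.sum_congr rfl fun z _ => h1 z, Finset.sum_sub_distrib, Finset.sum_ite_eq] at h2
  simp only [Finset.sum_const, Finset.card_univ, Finset.mem_univ, if_true, nsmul_eq_mul,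
    mul_one] at h2
  have h3 := h.card
  nlinarith [mul_nonneg (sub_nonneg.2 hq2) (sub_nonneg.2 hq2), pow_pos (lt_of_lt_of_le two_pos hq2) 3,
    pow_pos (lt_of_lt_of_le two_pos hq2) 4, pow_pos (lt_of_lt_of_le two_pos hq2) 2]

theorem Hi.le_two (h : Hi G q) : q ≤ 2 := by
  obtain ⟨x, y, hne, hn⟩ := h.exists_nonadj
  have hq2 : (2 : ℚ) ≤ q := by exact_mod_cast h.two_le
  have hq0 : (0 : ℚ) < q := by linarith
  have hd : (q : ℚ) ^ 3 * (q + 1) ≠ 0 := by positivity
  obtain ⟨n, hn'⟩ := trace_nat_rat (Matrix.of fun z w => ee G q x y z w / ((q : ℚ) ^ 3 * (q + 1)))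
    (by
      ext z w
      rw [Matrix.mul_apply]
      simp only [Matrix.of_apply]
      have e := h.ee_idem hne hn z w
      have e2 : ∑ u, ee G q x y z u / ((q : ℚ) ^ 3 * (q + 1)) *
          (ee G q x y u w / ((q : ℚ) ^ 3 * (q + 1))) =
          (∑ u, ee G q x y z u * ee G q x y u w) / ((q : ℚ) ^ 3 * (q + 1)) /
          ((q : ℚ) ^ 3 * (q + 1)) := by
        rw [Finset.sum_div, Finset.sum_div]
        refine Finset.sum_congr rfl fun u _ => ?_
        field_simp
      rw [e2, e]
      field_simp)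
  have htr : (Matrix.of fun z w => ee G q x y z w / ((q : ℚ) ^ 3 * (q + 1))).trace =
      ((q : ℚ) - 1) * (q - 2) / (2 * q) := by
    unfold Matrix.trace
    simp only [Matrix.diag_apply, Matrix.of_apply]
    rw [← Finset.sum_div, h.ee_trace hne hn]
    field_simp
  rw [htr, div_eq_iff (by positivity)] at hn'
  -- `(q - 1) (q - 2) = 2 q n`
  have h1 : ((q : ℤ) - 1) * (q - 2) = n * (2 * q) := by exact_mod_cast hn'
  have h2 : (q : ℤ) ∣ 2 := ⟨2 * n - q + 3, by linear_combination h1⟩
  have h3 : q ∣ 2 := by exact_mod_cast h2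
  exact Nat.le_of_dvd (by norm_num) h3

end Pool.Agent.MP3c1a32
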