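import Pool.Agent.Lib.MP_3c1a32_coX.XAo
import Pool.Agent.Lib.MP_3c1a32_coX.XH2
import Pool.Agent.Lib.MP_3c1a32_coL.LA

/-! MP_3c1a32_co: no strongly regular graph that is locally `GQ(q,q)`, `q ≥ 3`, has
`μ = 2 (q² + 1)` -/

namespace Pool.Agent.MP3c1a32

open Finset

variable {V : Type} [Fintype V] [DecidableEq V] {G : SimpleGraph V} [DecidableRel G.Adj]
  {n k l q : ℕ}

theorem hi_of_srg (hG : G.IsSRGWith n k l (2 * (q ^ 2 + 1))) (hbot : G ≠ ⊥)
    (hloc : ∀ x, LocGQ G x q q) (hq : 2 ≤ q) : Hi G q := by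
  have hb : Base G q := base_of_loc (by omega) hloc
  refine ⟨hq, srg_card hG hbot hloc hq, ?_, fun x y => base_lam hb, ?_,
    fun x y z hne hn hx hy => base_mu2 hb hne hn hx hy, fun x y => base_edge hb (by omega),
    fun x y z hxy hxz hyz => base_tri hb (by omega) hxy hxz hyz,
    fun C hC y hy => srg_out hG hbot hloc hb hq hC hy⟩
  · intro x
    obtain ⟨y, hy⟩ := srg_nonempty hG hbot x
    exact base_deg hb hy
  · intro x y hne hn
    have h1 := hG.of_not_adj hne hn
    have h2 : ∑ z, ad G x z * ad G y z = ((Fintype.card (G.commonNeighbors x y) : ℕ) : ℚ) := by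
      rw [← Set.toFinset_card]
      have h3 : ∑ z, ad G x z * ad G y z = ∑ z, if G.Adj x z ∧ G.Adj y z then (1 : ℚ) else 0 :=
        Finset.sum_congr rfl fun z _ => XA.ad_mul x y z
      rw [h3, Finset.sum_boole]
      congr 2
      ext z
      simp [SimpleGraph.mem_commonNeighbors]
    rw [h2, h1]
    push_cast
    ring

/-- in a strongly regular graph that is locally `GQ(q,q)` with `μ = 2 (q² + 1)` we have
`q ≤ 2` -/
theorem high_le_two (hG : G.IsSRGWith n k l (2 * (q ^ 2 + 1))) (hbot : G ≠ ⊥)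
    (hloc : ∀ x, LocGQ G x q q) (hq : 2 ≤ q) : q ≤ 2 :=
  (hi_of_srg hG hbot hloc hq).le_two

end Pool.Agent.MP3c1a32
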